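import Pool.Agent.Y882.GX.All
import Pool.Agent.Y854.GM.Win

/-!
# Primes at every scale between `√N` and `N / 2` with an almost prime complement, for all even `N` of short windows

Let `v ≥ 1` be a sequence with exponent of convergence at most `τ` (for `v_n = n ^ a` this is `1 / a`, for `v_n = b ^ n`
or `n!` it is `0`), `0 ≤ θ < 1`, and `r = 2`, `s > 13 / 22` or `r = 3`, `s > 1 / 2`. For all `α > 0` outside a set of
Hausdorff dimension at most `(s + τ) / (1 - θ)` and all but finitely many `n`, for ALL even `N` with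
`|N - α v_n| ≤ v_n ^ θ` and for ALL real `x` with `√N ≤ x ≤ N / 2` there are at least `δ 𝔖(N) x / (log N) ^ 2` primes `p`
in `(x / 4, x)` such that `N - p` has at most `r` prime factors.
-/

set_option autoImplicit false

open Finset

namespace Pool.Agent.Results.MP_33f996_nt.EveryScaleInWindows

/-- the exponent of convergence of the sequence `v` is at most `τ` -/
def ExpLe (v : ℕ → ℝ) (τ : ℝ) : Prop := ∀ t : ℝ, τ < t → Summable (fun n : ℕ => (v n) ^ (-t))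

/-- the variable part of the singular series of the Goldbach problem -/
noncomputable def sing (N : ℕ) : ℝ :=
  ∏ p ∈ N.primeFactors.erase 2, (((p : ℝ) - 1) / ((p : ℝ) - 2))

open Classical in
/-- the number of the primes `p < N` with `x / 4 < p < x` such that `N - p` has at most `r` prime factors (counted with
multiplicity), all of them at least `N ^ (3 / 22) / 2` -/
noncomputable def window (r : ℕ) (x : ℝ) (N : ℕ) : ℕ :=
  ((range N).filter (fun p : ℕ => p.Prime ∧ x / 4 < p ∧ (p : ℝ) < x ∧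
    (N - p).primeFactorsList.length ≤ r ∧
    ∀ q : ℕ, q.Prime → q ∣ (N - p) → (N : ℝ) ^ (3 / 22 : ℝ) / 2 ≤ q)).card

/-- the exceptional even numbers -/
def Exc (r : ℕ) (δ : ℝ) : Set ℕ :=
  {N : ℕ | Even N ∧ ∃ x : ℝ, Real.sqrt N ≤ x ∧ x ≤ N / 2 ∧ (window r x N : ℝ) < δ * sing N * (x / Real.log N ^ 2)}

lemma window_mono (r : ℕ) {ζ : ℝ} (hζ : 3 / 22 ≤ ζ) (x : ℝ) (N : ℕ) :
    Pool.Agent.Y882.GX.inWindow r ζ x N ≤ window r x N := by
  classical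
  unfold Pool.Agent.Y882.GX.inWindow window
  apply card_le_card
  intro p hp
  rw [mem_filter, mem_range] at hp ⊢
  obtain ⟨h1, h2, h3, h4, h5, h6⟩ := hp
  refine ⟨h1, h2, h3, h4, h5, fun q hq hqd => ?_⟩
  refine le_trans ?_ (h6 q hq hqd)
  have hN : (1 : ℝ) ≤ N := by
    have : 1 ≤ N := by omega
    exact_mod_cast this
  have := Real.rpow_le_rpow_of_exponent_le hN hζ
  linarith

open Classical in
lemma count (r : ℕ) (s : ℝ) (h : (r = 2 ∧ 13 / 22 < s) ∨ (r = 3 ∧ 1 / 2 < s)) :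
    ∃ δ : ℝ, 0 < δ ∧ ∀ ε : ℝ, 0 < ε → ∃ C : ℝ, ∀ X : ℕ, 1 ≤ X →
      (((Ioc 0 X).filter (fun t => t ∈ Exc r δ)).card : ℝ) ≤ C * (X : ℝ) ^ (s + ε) := by
  obtain ⟨τ, ζ, hpar, hτ, hζ, hs⟩ : ∃ τ ζ : ℝ, Pool.Agent.Y882.GX.Par r τ ζ ∧ τ < 1 ∧ 3 / 22 ≤ ζ ∧ 2 * τ - 1 / 2 < s := by
    rcases h with ⟨hr, hs⟩ | ⟨hr, hs⟩
    · exact ⟨6 / 11, 3 / 22, Or.inr ⟨hr, le_rfl, by norm_num⟩, by norm_num, le_rfl, by linarith⟩
    · exact ⟨1 / 2, 1 / 5, Or.inl ⟨hr, le_rfl, by norm_num⟩, by norm_num, by norm_num, by linarith⟩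
  obtain ⟨δ, C, hδ, hC, hX⟩ := Pool.Agent.Y882.GX.everyScale r (1 / 2) τ ζ (s - (2 * τ - 1 / 2)) hpar hτ (by norm_num)
    (by norm_num) (by linarith)
  refine ⟨δ, hδ, fun ε hε => ⟨C, fun X hX1 => ?_⟩⟩
  have h1 := hX X hX1
  have hX1' : (1 : ℝ) ≤ X := by exact_mod_cast hX1
  have hsub : (Ioc 0 X).filter (fun t => t ∈ Exc r δ) ⊆ (Icc 1 X).filter (fun N : ℕ => Even N ∧ ∃ x : ℝ,
      (N : ℝ) ^ (1 / 2 : ℝ) ≤ x ∧ x ≤ N / 2 ∧
        (Pool.Agent.Y882.GX.inWindow r ζ x N : ℝ) < δ * sing N * (x / Real.log N ^ 2)) := by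
    intro t ht
    rw [mem_filter, mem_Ioc] at ht
    rw [mem_filter, mem_Icc]
    obtain ⟨ht1, ht2, x, hx1, hx2, hx3⟩ := ht
    refine ⟨⟨ht1.1, ht1.2⟩, ht2, x, ?_, hx2, lt_of_le_of_lt ?_ hx3⟩
    · rw [← Real.sqrt_eq_rpow]; exact hx1
    · exact_mod_cast window_mono r hζ x t
  calc (((Ioc 0 X).filter (fun t => t ∈ Exc r δ)).card : ℝ)
      ≤ _ := by exact_mod_cast Finset.card_le_card hsub
    _ ≤ C * (X : ℝ) ^ (2 * τ - 1 / 2 + (s - (2 * τ - 1 / 2))) := h1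
    _ ≤ C * (X : ℝ) ^ (s + ε) := by
        apply mul_le_mul_of_nonneg_left _ hC.le
        apply Real.rpow_le_rpow_of_exponent_le hX1'
        linarith

/-- **Theorem.** Let `r = 2` and `s > 13 / 22`, or `r = 3` and `s > 1 / 2`. There is `δ > 0` such that for all sequences
`v ≥ 1` of exponent of convergence at most `τ ≥ 0` and `0 ≤ θ < 1` there is a set `E` of Hausdorff dimension at most
`(s + τ) / (1 - θ)` such that for each `α > 0` outside `E` and all but finitely many `n`, for ALL even `N` with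
`|N - α v_n| ≤ v_n ^ θ` and ALL real `x` with `√N ≤ x ≤ N / 2` there are at least `δ 𝔖(N) x / (log N) ^ 2` primes `p` with
`x / 4 < p < x` such that `N - p` has at most `r` prime factors, all of them at least `N ^ (3 / 22) / 2`.
The sequences `v_n = (n + 1) ^ a` and `v_n = b ^ n` have exponent of convergence at most `1 / a` and `0`. -/
theorem result :
    (∀ (r : ℕ) (s : ℝ), (r = 2 ∧ 13 / 22 < s) ∨ (r = 3 ∧ 1 / 2 < s) → ∃ δ : ℝ, 0 < δ ∧
      ∀ (v : ℕ → ℝ) (τ θ : ℝ), (∀ n, 1 ≤ v n) → 0 ≤ τ → ExpLe v τ → 0 ≤ θ → θ < 1 →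
      ∃ E : Set ℝ, dimH E ≤ ENNReal.ofReal ((s + τ) / (1 - θ)) ∧
        ∀ α : ℝ, 0 < α → α ∉ E → ∃ n₀ : ℕ, ∀ n : ℕ, n₀ ≤ n → ∀ N : ℕ, Even N → |(N : ℝ) - α * v n| ≤ (v n) ^ θ →
          ∀ x : ℝ, Real.sqrt N ≤ x → x ≤ N / 2 →
            δ * sing N * (x / Real.log N ^ 2) ≤ (window r x N : ℝ)) ∧
    (∀ a : ℝ, 0 < a → ExpLe (fun n : ℕ => ((n : ℝ) + 1) ^ a) (1 / a)) ∧
    (∀ b : ℝ, 1 < b → ExpLe (fun n : ℕ => b ^ n) 0) := by
  refine ⟨fun r s h => ?_, fun κ hκ => Pool.Agent.Y854.GM.expLe_pow κ hκ,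
    fun b hb => Pool.Agent.Y854.GM.expLe_geom b hb⟩
  obtain ⟨δ, hδ, hcount⟩ := count r s h
  refine ⟨δ, hδ, fun v τ θ hv hτ hE hθ hθ1 => ?_⟩
  have hs0 : 0 ≤ s := by
    rcases h with ⟨_, h⟩ | ⟨_, h⟩ <;> linarith
  obtain ⟨E, h2, h3⟩ := Pool.Agent.Y854.GM.win_nat (Exc r δ) hv hτ hE (s := s) hs0 hθ1 hcount
  refine ⟨E, h2, fun α hα hαE => ?_⟩
  obtain ⟨n₀, hn⟩ := h3 α hα hαE
  refine ⟨n₀, fun n hn1 N hN hw x hx1 hx2 => ?_⟩
  by_contra hcon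
  push Not at hcon
  exact (hn n hn1 N hw).2 ⟨hN, x, hx1, hx2, hcon⟩

end Pool.Agent.Results.MP_33f996_nt.EveryScaleInWindows
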