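import Pool.Agent.Results.MP_33f996_nt.EveryScaleInWindows
import Pool.Agent.V11001.KM.NatSet

/-!
# Primes at every scale between `√N` and `N / 2` with an almost prime complement, for all even `N` near the powers of
# almost every real number

Let `ν n / log n → ∞`, for example `ν n = n`, and `r = 2`, `s > 13 / 22` or `r = 3`, `s > 1 / 2`. For almost every real
`z > 1` and all `θ < 1 - s`: for ALL large even `N` with `|N - z ^ (ν n)| ≤ z ^ (θ ν n)` for some `n` and for ALL real `x`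
with `√N ≤ x ≤ N / 2` there are at least `δ 𝔖(N) x / (log N) ^ 2` primes `p` in `(x / 4, x)` such that `N - p` has at most
`r` prime factors.
-/

set_option autoImplicit false

open Filter

namespace Pool.Agent.Results.MP_33f996_nt.EveryScaleNearPowers

open EveryScaleInWindows (sing window Exc count)

/-- `ν n / log n → ∞`, for example `ν n = n` or `ν n = n !` -/
def Fast (ν : ℕ → ℝ) : Prop := Tendsto (fun n : ℕ => ν n / Real.log n) atTop atTop

/-- `N` is in the window of length `2 z ^ (θ ν n)` around `β z ^ (ν n)`, for some `n` -/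
def Near (ν : ℕ → ℝ) (θ β z : ℝ) (N : ℕ) : Prop := ∃ n : ℕ, |(N : ℝ) - β * z ^ ν n| ≤ z ^ (θ * ν n)

/-- every real `x` with `√N ≤ x ≤ N / 2` has at least `δ 𝔖(N) x / (log N) ^ 2` primes `p` in `(x / 4, x)` such that
`N - p` has at most `r` prime factors, all at least `N ^ (3 / 22) / 2` -/
def EveryScale (r : ℕ) (δ : ℝ) (N : ℕ) : Prop :=
  ∀ x : ℝ, Real.sqrt N ≤ x → x ≤ N / 2 → δ * sing N * (x / Real.log N ^ 2) ≤ (window r x N : ℝ)

/-- **Theorem.** Let `r = 2`, `s > 13 / 22` or `r = 3`, `s > 1 / 2`. There is `δ > 0` such that for every `ν` with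
`ν n / log n → ∞` and every countable set `U` of real numbers:
(1) for `θ < 1` there is a set `E` of Hausdorff dimension at most `s / (1 - θ)` such that for each real `z > 1` outside
`E` and each positive `β ∈ U` all large even `N` with `|N - β z ^ (ν n)| ≤ z ^ (θ ν n)` for some `n` satisfy
`EveryScale r δ N`;
(2) for almost every real `z > 1` this holds for all `θ < 1 - s` and all positive `β ∈ U`. -/
theorem result (r : ℕ) (s : ℝ) (h : (r = 2 ∧ 13 / 22 < s) ∨ (r = 3 ∧ 1 / 2 < s)) :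
    ∃ δ : ℝ, 0 < δ ∧ ∀ (ν : ℕ → ℝ) (U : Set ℝ), Fast ν → U.Countable →
      (∀ θ : ℝ, θ < 1 → ∃ E : Set ℝ, dimH E ≤ ENNReal.ofReal (s / (1 - θ)) ∧
        ∀ z : ℝ, 1 < z → z ∉ E → ∀ β ∈ U, 0 < β →
          ∃ N₀ : ℕ, ∀ N : ℕ, N₀ ≤ N → Even N → Near ν θ β z N → EveryScale r δ N) ∧
      (∀ᵐ z : ℝ, 1 < z → ∀ θ : ℝ, θ < 1 - s → ∀ β ∈ U, 0 < β →
          ∃ N₀ : ℕ, ∀ N : ℕ, N₀ ≤ N → Even N → Near ν θ β z N → EveryScale r δ N) := by
  have hs0 : 0 ≤ s := by
    rcases h with ⟨_, h⟩ | ⟨_, h⟩ <;> linarith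
  obtain ⟨δ, hδ, hcount⟩ := count r s h
  have key : ∀ (ν : ℕ → ℝ) (θ β z : ℝ) (H₀ : ℝ), (∀ t ∈ Exc r δ, Pool.Agent.V11001.KM.Near ν θ β z (t : ℝ) → (t : ℝ) < H₀) →
      ∃ N₀ : ℕ, ∀ N : ℕ, N₀ ≤ N → Even N → Near ν θ β z N → EveryScale r δ N := by
    intro ν θ β z H₀ hH
    obtain ⟨N₀, hN₀⟩ := exists_nat_gt H₀
    refine ⟨N₀, fun N hN he hn x hx1 hx2 => ?_⟩
    by_contra hcon
    push Not at hcon
    have h1 := hH N ⟨he, x, hx1, hx2, hcon⟩ hn
    have h2 : (N₀ : ℝ) ≤ N := by exact_mod_cast hN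
    linarith
  refine ⟨δ, hδ, fun ν U hν hU => ⟨fun θ hθ => ?_, ?_⟩⟩
  · obtain ⟨E, h1, h2⟩ := Pool.Agent.V11001.KM.family_threshold (fun m : ℕ => (m : ℝ)) hν hs0 hθ U hU (J := Unit)
      (fun _ => Exc r δ) (fun _ ε hε => Pool.Agent.V11001.KM.count_of_nat _ hs0 hε (hcount ε hε))
    refine ⟨E, h1, fun z hz hzE β hβ hβ0 => ?_⟩
    obtain ⟨H₀, hH⟩ := h2 z hz hzE β hβ hβ0 ()
    exact key ν θ β z H₀ hH
  · filter_upwards [Pool.Agent.V11001.KM.ae_family_threshold (fun m : ℕ => (m : ℝ)) hν hs0 U hU (J := Unit)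
      (fun _ => Exc r δ) (fun _ ε hε => Pool.Agent.V11001.KM.count_of_nat _ hs0 hε (hcount ε hε))]
      with z hz hz1 θ hθ β hβ hβ0
    obtain ⟨H₀, hH⟩ := hz hz1 θ hθ β hβ hβ0 ()
    exact key ν θ β z H₀ hH

end Pool.Agent.Results.MP_33f996_nt.EveryScaleNearPowers
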